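import Pool.Agent.E8helper81.GZ.Stm

/-!
# GZ-H: a lower bound for the sum of the reciprocals
-/

set_option autoImplicit false

namespace Pool.Agent.E8helper1.GZ

open Finset

lemma tele_le (p N : ℕ) (hp : 1 ≤ p) :
    ∑ n ∈ Icc p N, 1 / ((n : ℝ) * (n + 1)) ≤ 1 / (p : ℝ) := by
  have hp0 : (0 : ℝ) < p := by exact_mod_cast hp
  rcases lt_or_ge N p with h | h
  · rw [Icc_eq_empty (by omega), sum_empty]
    positivity
  · have key : ∀ M : ℕ, p ≤ M →
        ∑ n ∈ Icc p M, 1 / ((n : ℝ) * (n + 1)) = 1 / (p : ℝ) - 1 / ((M : ℝ) + 1) := by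
      intro M hM
      induction M, hM using Nat.le_induction with
      | base =>
        rw [Icc_self, sum_singleton]
        field_simp
        ring
      | succ M hM ih =>
        rw [← Finset.insert_Icc_right_eq_Icc_add_one (by omega), sum_insert (by simp), ih]
        have hM0 : (0 : ℝ) < (M : ℝ) + 1 := by positivity
        push_cast
        field_simp
        ring
    rw [key N h]
    have : (0 : ℝ) ≤ 1 / ((N : ℝ) + 1) := by positivity
    linarith

lemma log_sum (N₁ N₂ : ℕ) (h : N₁ ≤ N₂) :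
    Real.log (((N₂ : ℝ) + 2) / (N₁ + 1)) = ∑ n ∈ Icc N₁ N₂, Real.log (((n : ℝ) + 2) / (n + 1)) := by
  induction N₂, h using Nat.le_induction with
  | base => rw [Icc_self, sum_singleton]
  | succ M hM ih =>
    rw [← Finset.insert_Icc_right_eq_Icc_add_one (by omega), sum_insert (by simp), ← ih]
    rw [← Real.log_mul (by positivity) (by positivity)]
    congr 1
    push_cast
    field_simp
    ring

theorem t_H : Pool.Agent.E8helper81.GZ.S_H := by
  intro S a y₀ N₁ N₂ ha h1 h12 hS hy hN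
  set S' := S.filter (fun p => y₀ < p ∧ p ≤ N₂) with hS'
  have hswap : ∑ p ∈ S', ∑ n ∈ Icc N₁ N₂, (if p ≤ n then 1 / ((n : ℝ) * (n + 1)) else 0) =
      ∑ n ∈ Icc N₁ N₂, ((S'.filter (fun p => p ≤ n)).card : ℝ) * (1 / ((n : ℝ) * (n + 1))) := by
    rw [sum_comm]
    refine sum_congr rfl fun n _ => ?_
    rw [← sum_filter, sum_const, nsmul_eq_mul]
  have hle : ∑ p ∈ S', ∑ n ∈ Icc N₁ N₂, (if p ≤ n then 1 / ((n : ℝ) * (n + 1)) else 0) ≤
      ∑ p ∈ S', 1 / (p : ℝ) := by
    refine sum_le_sum fun p hp => ?_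
    have hp1 : 1 ≤ p := hS p (mem_filter.1 hp).1
    rw [← sum_filter]
    refine le_trans (sum_le_sum_of_subset_of_nonneg (t := Icc p N₂) ?_ ?_) (tele_le p N₂ hp1)
    · intro n hn
      rw [mem_filter, mem_Icc] at hn
      rw [mem_Icc]
      exact ⟨hn.2, hn.1.2⟩
    · intro n _ _
      positivity
  refine le_trans ?_ hle
  rw [hswap, log_sum N₁ N₂ h12, mul_sum]
  refine sum_le_sum fun n hn => ?_
  rw [mem_Icc] at hn
  have hn0 : (0 : ℝ) < n := by exact_mod_cast (by omega : 0 < n)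
  have hcard : a / 2 * n ≤ ((S'.filter (fun p => p ≤ n)).card : ℝ) := by
    have hc := hN n hn.1 hn.2
    have hsub : S.filter (fun p => p ≤ n) ⊆ S'.filter (fun p => p ≤ n) ∪ Icc 1 y₀ := by
      intro p hp
      rw [mem_filter] at hp
      rw [mem_union, mem_filter, hS', mem_filter, mem_Icc]
      rcases lt_or_ge y₀ p with h | h
      · left
        exact ⟨⟨hp.1, h, hp.2.trans hn.2⟩, hp.2⟩
      · right
        exact ⟨hS p hp.1, h⟩
    have hc2 := (card_le_card hsub).trans (card_union_le _ _)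
    rw [Nat.card_Icc, Nat.add_sub_cancel] at hc2
    have hc3 : ((S.filter (fun p => p ≤ n)).card : ℝ) ≤
        ((S'.filter (fun p => p ≤ n)).card : ℝ) + y₀ := by exact_mod_cast hc2
    have hn1 : (N₁ : ℝ) ≤ n := by exact_mod_cast hn.1
    have : a / 2 * N₁ ≤ a / 2 * n := mul_le_mul_of_nonneg_left hn1 (by positivity)
    linarith
  have hlog : Real.log (((n : ℝ) + 2) / (n + 1)) ≤ 1 / ((n : ℝ) + 1) := by
    have h := Real.log_le_sub_one_of_pos (x := ((n : ℝ) + 2) / (n + 1)) (by positivity)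
    have e : ((n : ℝ) + 2) / (n + 1) - 1 = 1 / ((n : ℝ) + 1) := by
      field_simp
      ring
    rwa [e] at h
  calc a / 2 * Real.log (((n : ℝ) + 2) / (n + 1)) ≤ a / 2 * (1 / ((n : ℝ) + 1)) :=
        mul_le_mul_of_nonneg_left hlog (by positivity)
    _ = (a / 2 * n) * (1 / ((n : ℝ) * (n + 1))) := by
        field_simp
    _ ≤ ((S'.filter (fun p => p ≤ n)).card : ℝ) * (1 / ((n : ℝ) * (n + 1))) :=
        mul_le_mul_of_nonneg_right hcard (by positivity)

end Pool.Agent.E8helper1.GZ
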